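import Mathlib

namespace Pool.Agent.Results.MP_c0f1e3_an.Rays

open Set Module

/-- The orbit `{s v : s ∈ S}` of the vector `v` under the set `S` of invertible linear maps. -/
def orbit (𝕜 : Type) {V : Type} [RCLike 𝕜] [NormedAddCommGroup V] [NormedSpace 𝕜 V]
    (S : Set (V ≃ₗ[𝕜] V)) (v : V) : Set V := {y | ∃ s ∈ S, y = s v}

/-- The ray `{t w : t > 0}` through the vector `w`. -/
def ray (𝕜 : Type) {V : Type} [RCLike 𝕜] [NormedAddCommGroup V] [NormedSpace 𝕜 V]
    (w : V) : Set V := {y | ∃ t : ℝ, 0 < t ∧ y = (t : 𝕜) • w}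

/-- `A` is coarsely dense along `Y`: for some `D > 0` the open balls of radius `D` centred at the
points of `A` cover `Y`. -/
def CoarselyDenseAlong {V : Type} [NormedAddCommGroup V] (A Y : Set V) : Prop :=
  ∃ D : ℝ, 0 < D ∧ Y ⊆ ⋃ a ∈ A, Metric.ball a D

/-- There are finitely many rays such that every semigroup `S` generated by finitely many pairwise
commuting invertible linear maps that has an orbit coarsely dense along the union of these rays
has a somewhere dense orbit. -/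
def Rays (𝕜 V : Type) [RCLike 𝕜] [NormedAddCommGroup V] [NormedSpace 𝕜 V] : Prop :=
  ∃ (m : ℕ) (w : Fin m → V), (∀ i, w i ≠ 0) ∧
    ∀ F : Set (V ≃ₗ[𝕜] V), F.Finite → (∀ a ∈ F, ∀ b ∈ F, a * b = b * a) →
      (∃ v, CoarselyDenseAlong (orbit 𝕜 (Subsemigroup.closure F : Set (V ≃ₗ[𝕜] V)) v)
        (⋃ i, ray 𝕜 (w i))) →
      ∃ v, (interior (closure (orbit 𝕜 (Subsemigroup.closure F : Set (V ≃ₗ[𝕜] V)) v))).Nonempty

section neg

variable {𝕜 V : Type} [RCLike 𝕜] [NormedAddCommGroup V] [NormedSpace 𝕜 V]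

/-- The map `x ↦ c (x + f(x) u)` for `f(u) = 0`. -/
noncomputable def T (f : V →ₗ[𝕜] 𝕜) (c : 𝕜ˣ) (u : LinearMap.ker f) : V ≃ₗ[𝕜] V where
  toFun x := (c : 𝕜) • (x + f x • (u : V))
  map_add' x y := by simp only [map_add, add_smul, smul_add]; abel
  map_smul' a x := by
    simp only [map_smul, smul_add, smul_smul, smul_eq_mul, RingHom.id_apply]
    congr 1
    · rw [mul_comm]
    · congr 1; ring
  invFun x := ((c⁻¹ : 𝕜ˣ) : 𝕜) • (x - f x • (u : V))
  left_inv x := by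
    have hu : f (u : V) = 0 := u.2
    simp only [map_smul, map_add, hu, smul_eq_mul, mul_zero, add_zero]
    rw [smul_sub, smul_smul, smul_smul, ← mul_assoc, Units.inv_mul, one_smul, one_mul]
    abel
  right_inv x := by
    have hu : f (u : V) = 0 := u.2
    simp only [map_smul, map_sub, hu, smul_eq_mul, mul_zero, sub_zero]
    rw [smul_add, smul_smul, smul_smul, ← mul_assoc, Units.mul_inv, one_smul, one_mul]
    abel

theorem T_apply (f : V →ₗ[𝕜] 𝕜) (c : 𝕜ˣ) (u : LinearMap.ker f) (x : V) :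
    T f c u x = (c : 𝕜) • (x + f x • (u : V)) := rfl

theorem T_mul (f : V →ₗ[𝕜] 𝕜) (c c' : 𝕜ˣ) (u u' : LinearMap.ker f) :
    T f c u * T f c' u' = T f (c * c') (u + u') := by
  ext x
  have hu : f (u' : V) = 0 := u'.2
  simp only [LinearEquiv.mul_apply, T_apply, map_smul, map_add, hu, smul_eq_mul, mul_zero, add_zero,
    Units.val_mul, Submodule.coe_add, smul_add, smul_smul]
  module

/-- The unit `e^x`. -/
noncomputable def ex (𝕜 : Type) [RCLike 𝕜] (x : ℝ) : 𝕜ˣ :=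
  Units.mk0 ((Real.exp x : ℝ) : 𝕜) (by
    rw [Ne, RCLike.ofReal_eq_zero]; exact (Real.exp_pos x).ne')

theorem ex_coe (x : ℝ) : ((ex 𝕜 x : 𝕜ˣ) : 𝕜) = ((Real.exp x : ℝ) : 𝕜) := rfl

theorem ex_add (x y : ℝ) : ex 𝕜 (x + y) = ex 𝕜 x * ex 𝕜 y := by
  ext; simp [ex_coe, Real.exp_add]

theorem ex_zero : ex 𝕜 0 = 1 := by
  ext; simp [ex_coe]

theorem T_zero (f : V →ₗ[𝕜] 𝕜) : T f (ex 𝕜 0) 0 = 1 := by
  ext x; simp [T_apply, ex_zero]

/-- A finite union of closed sets with empty interior has empty interior. -/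
theorem interior_finset {ι X : Type*} [TopologicalSpace X] (s : Finset ι) (K : ι → Set X)
    (h1 : ∀ i, IsClosed (K i)) (h2 : ∀ i, interior (K i) = ∅) :
    IsClosed (⋃ i ∈ s, K i) ∧ interior (⋃ i ∈ s, K i) = ∅ := by
  classical
  induction s using Finset.induction_on with
  | empty => simp
  | insert a s ha ih =>
    rw [Finset.set_biUnion_insert]
    refine ⟨(h1 a).union ih.1, ?_⟩
    rw [interior_union_isClosed_of_interior_empty (h1 a) ih.2, h2 a]

theorem line_closed (v : V) : IsClosed ((Submodule.span 𝕜 {v} : Submodule 𝕜 V) : Set V) :=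
  Submodule.closed_of_finiteDimensional _

theorem line_interior [FiniteDimensional 𝕜 V] (h : 2 ≤ finrank 𝕜 V) (v : V) :
    interior ((Submodule.span 𝕜 {v} : Submodule 𝕜 V) : Set V) = ∅ := by
  by_contra hne
  rw [← Ne, ← Set.nonempty_iff_ne_empty] at hne
  have h1 := Submodule.eq_top_of_nonempty_interior' _ hne
  have h2 : finrank 𝕜 (Submodule.span 𝕜 {v} : Submodule 𝕜 V) ≤ 1 := by
    have := finrank_span_le_card (R := 𝕜) ({v} : Set V)
    simpa using this
  rw [h1, finrank_top] at h2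
  omega

theorem ker_interior (f : V →ₗ[𝕜] 𝕜) (hf : f ≠ 0) :
    interior ((LinearMap.ker f : Submodule 𝕜 V) : Set V) = ∅ := by
  by_contra hne
  rw [← Ne, ← Set.nonempty_iff_ne_empty] at hne
  have h1 := Submodule.eq_top_of_nonempty_interior' _ hne
  exact hf (LinearMap.ker_eq_top.1 h1)

/-- The generators of the semigroup. -/
noncomputable def gens {m : ℕ} (f : V →ₗ[𝕜] 𝕜) (c : Fin m → 𝕜ˣ) (u : Fin m → LinearMap.ker f) :
    Set (V ≃ₗ[𝕜] V) :=
  ({T f (ex 𝕜 1) 0, T f (ex 𝕜 (-1)) 0, T f (ex 𝕜 (Real.sqrt 2)) 0, T f (ex 𝕜 (-Real.sqrt 2)) 0} :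
    Set (V ≃ₗ[𝕜] V)) ∪ Set.range fun i => T f (c i) (u i)

theorem gens_finite {m : ℕ} (f : V →ₗ[𝕜] 𝕜) (c : Fin m → 𝕜ˣ) (u : Fin m → LinearMap.ker f) :
    (gens f c u).Finite := by
  unfold gens
  exact (Set.toFinite _).union (Set.finite_range _)

theorem gens_form {m : ℕ} (f : V →ₗ[𝕜] 𝕜) (c : Fin m → 𝕜ˣ) (u : Fin m → LinearMap.ker f)
    {s : V ≃ₗ[𝕜] V} (hs : s ∈ gens f c u) :
    ∃ (a : 𝕜ˣ) (n : Fin m → ℕ), s = T f a (∑ i, n i • u i) := by
  unfold gens at hs
  rcases hs with hs | ⟨i, rfl⟩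
  · simp only [Set.mem_insert_iff, Set.mem_singleton_iff] at hs
    rcases hs with rfl | rfl | rfl | rfl
    · exact ⟨ex 𝕜 1, 0, by simp⟩
    · exact ⟨ex 𝕜 (-1), 0, by simp⟩
    · exact ⟨ex 𝕜 (Real.sqrt 2), 0, by simp⟩
    · exact ⟨ex 𝕜 (-Real.sqrt 2), 0, by simp⟩
  · classical
    refine ⟨c i, Pi.single i 1, ?_⟩
    congr 1
    rw [Finset.sum_eq_single i]
    · simp
    · intro j _ hj
      simp [Pi.single_eq_of_ne hj]
    · simp

theorem gens_comm {m : ℕ} (f : V →ₗ[𝕜] 𝕜) (c : Fin m → 𝕜ˣ) (u : Fin m → LinearMap.ker f) :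
    ∀ a ∈ gens f c u, ∀ b ∈ gens f c u, a * b = b * a := by
  intro a ha b hb
  obtain ⟨x, n, rfl⟩ := gens_form f c u ha
  obtain ⟨y, k, rfl⟩ := gens_form f c u hb
  rw [T_mul, T_mul, mul_comm, add_comm]

theorem closure_form {m : ℕ} (f : V →ₗ[𝕜] 𝕜) (c : Fin m → 𝕜ˣ) (u : Fin m → LinearMap.ker f)
    {s : V ≃ₗ[𝕜] V} (hs : s ∈ Subsemigroup.closure (gens f c u)) :
    ∃ (a : 𝕜ˣ) (n : Fin m → ℕ), s = T f a (∑ i, n i • u i) := by
  induction hs using Subsemigroup.closure_induction with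
  | mem x hx => exact gens_form f c u hx
  | mul x y _ _ hx hy =>
    obtain ⟨a, n, rfl⟩ := hx
    obtain ⟨b, k, rfl⟩ := hy
    refine ⟨a * b, n + k, ?_⟩
    rw [T_mul]
    congr 1
    rw [← Finset.sum_add_distrib]
    refine Finset.sum_congr rfl fun i _ => ?_
    rw [Pi.add_apply, add_smul]

theorem exp_mem {m : ℕ} (f : V →ₗ[𝕜] 𝕜) (c : Fin m → 𝕜ˣ) (u : Fin m → LinearMap.ker f)
    {x : ℝ} (hx : x ∈ AddSubgroup.closure ({1, Real.sqrt 2} : Set ℝ)) :
    (∀ s ∈ Subsemigroup.closure (gens f c u), T f (ex 𝕜 x) 0 * s ∈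
      Subsemigroup.closure (gens f c u)) ∧
    (∀ s ∈ Subsemigroup.closure (gens f c u), T f (ex 𝕜 (-x)) 0 * s ∈
      Subsemigroup.closure (gens f c u)) := by
  induction hx using AddSubgroup.closure_induction with
  | mem x hx =>
    simp only [Set.mem_insert_iff, Set.mem_singleton_iff] at hx
    rcases hx with rfl | rfl
    · constructor
      · intro s hs
        refine mul_mem (Subsemigroup.subset_closure ?_) hs
        unfold gens; simp
      · intro s hs
        refine mul_mem (Subsemigroup.subset_closure ?_) hs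
        unfold gens; simp
    · constructor
      · intro s hs
        refine mul_mem (Subsemigroup.subset_closure ?_) hs
        unfold gens; simp
      · intro s hs
        refine mul_mem (Subsemigroup.subset_closure ?_) hs
        unfold gens; simp
  | zero =>
    constructor
    · intro s hs
      rw [T_zero, one_mul]; exact hs
    · intro s hs
      rw [neg_zero, T_zero, one_mul]; exact hs
  | add x y _ _ hx hy =>
    constructor
    · intro s hs
      have h1 := hx.1 _ (hy.1 s hs)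
      rw [← mul_assoc, T_mul, ← ex_add, add_zero] at h1
      exact h1
    · intro s hs
      have h1 := hx.2 _ (hy.2 s hs)
      rw [← mul_assoc, T_mul, ← ex_add, add_zero] at h1
      rw [neg_add]
      exact h1
  | neg x _ hx =>
    refine ⟨hx.2, ?_⟩
    rw [neg_neg]
    exact hx.1

theorem coarse {m : ℕ} (f : V →ₗ[𝕜] 𝕜) (c : Fin m → 𝕜ˣ) (u : Fin m → LinearMap.ker f)
    (e : V) (he : f e = 1) (w : Fin m → V) (hw : ∀ i, w i = (c i : 𝕜) • (e + (u i : V))) :
    CoarselyDenseAlong (orbit 𝕜 (Subsemigroup.closure (gens f c u) : Set (V ≃ₗ[𝕜] V)) e)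
        (⋃ i, ray 𝕜 (w i)) := by
  refine ⟨1, one_pos, ?_⟩
  intro y hy
  rw [Set.mem_iUnion] at hy
  obtain ⟨i, t, ht, rfl⟩ := hy
  have hcont : Continuous fun x : ℝ => ((Real.exp x : ℝ) : 𝕜) • w i :=
    (RCLike.continuous_ofReal.comp Real.continuous_exp).smul continuous_const
  have hdense : Dense (AddSubgroup.closure ({1, Real.sqrt 2} : Set ℝ) : Set ℝ) := by
    rw [dense_addSubgroupClosure_pair_iff]
    have := irrational_sqrt_two.inv
    simpa using this
  have hopen : IsOpen {x : ℝ | dist ((t : 𝕜) • w i) (((Real.exp x : ℝ) : 𝕜) • w i) < 1} :=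
    isOpen_lt (continuous_const.dist hcont) continuous_const
  obtain ⟨x, hx1, hx2⟩ := hdense.exists_mem_open hopen ⟨Real.log t, by
    simp [Real.exp_log ht]⟩
  rw [Set.mem_iUnion₂]
  refine ⟨((Real.exp x : ℝ) : 𝕜) • w i, ?_, hx2⟩
  refine ⟨T f (ex 𝕜 x) 0 * T f (c i) (u i), ?_, ?_⟩
  · refine (exp_mem f c u hx1).1 _ (Subsemigroup.subset_closure ?_)
    unfold gens; simp
  · rw [T_mul, zero_add, T_apply, he, one_smul, hw i, smul_smul, Units.val_mul, ex_coe]

theorem no_dense [FiniteDimensional 𝕜 V] (h2 : 2 ≤ finrank 𝕜 V) {m : ℕ} (f : V →ₗ[𝕜] 𝕜)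
    (c : Fin m → 𝕜ˣ) (u : Fin m → LinearMap.ker f) (g : V →ₗ[𝕜] 𝕜)
    (hg : ∀ i, 1 ≤ RCLike.re (g (u i))) (hf : f ≠ 0) (v : V) :
    ¬ (interior (closure (orbit 𝕜 (Subsemigroup.closure (gens f c u) :
      Set (V ≃ₗ[𝕜] V)) v))).Nonempty := by
  set O := orbit 𝕜 (Subsemigroup.closure (gens f c u) : Set (V ≃ₗ[𝕜] V)) v with hO
  intro hne
  by_cases hv : f v = 0
  · have h1 : O ⊆ (Submodule.span 𝕜 {v} : Submodule 𝕜 V) := by
      rintro y ⟨s, hs, rfl⟩
      obtain ⟨a, n, rfl⟩ := closure_form f c u hs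
      rw [T_apply, hv, zero_smul, add_zero]
      exact Submodule.smul_mem _ _ (Submodule.mem_span_singleton_self v)
    have h3 : interior (closure O) ⊆ interior ((Submodule.span 𝕜 {v} : Submodule 𝕜 V) : Set V) :=
      interior_mono (closure_minimal h1 (line_closed v))
    rw [line_interior h2 v] at h3
    obtain ⟨y, hy⟩ := hne
    exact h3 hy
  · have hfc : Continuous f := f.continuous_of_finiteDimensional
    have hgc : Continuous g := g.continuous_of_finiteDimensional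
    -- a point of the interior outside the kernel of `f`
    obtain ⟨y0, hy0, hfy0⟩ : ∃ y ∈ interior (closure O), f y ≠ 0 := by
      by_contra! hcon
      have h3 : interior (closure O) ⊆ interior ((LinearMap.ker f : Submodule 𝕜 V) : Set V) :=
        interior_maximal (fun y hy => hcon y hy) isOpen_interior
      rw [ker_interior f hf] at h3
      obtain ⟨y, hy⟩ := hne
      exact h3 hy
    set C : ℝ := RCLike.re (g y0 / f y0) + 1 with hC
    set W : Set V := interior (closure O) ∩ {y | f y ≠ 0 ∧ RCLike.re (g y / f y) < C} with hW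
    have hWo : IsOpen W := by
      refine isOpen_interior.inter ?_
      have hfo : IsOpen {y : V | f y ≠ 0} := isOpen_ne_fun hfc continuous_const
      have hct : ContinuousOn (fun y : V => RCLike.re (g y / f y)) {y | f y ≠ 0} :=
        RCLike.continuous_re.comp_continuousOn
          (hgc.continuousOn.div hfc.continuousOn fun y hy => hy)
      exact hct.isOpen_inter_preimage hfo isOpen_Iio
    have hy0W : y0 ∈ W := ⟨hy0, hfy0, by rw [hC]; linarith⟩
    obtain ⟨N, hN⟩ := exists_nat_gt (C - RCLike.re (g v / f v))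
    have hfin : (Set.Iic (fun _ : Fin m => N)).Finite := Set.finite_Iic _
    set K : Set V := ⋃ n ∈ hfin.toFinset,
      ((Submodule.span 𝕜 {v + f v • ((∑ i, n i • u i : LinearMap.ker f) : V)} :
        Submodule 𝕜 V) : Set V) with hK
    have hKc := interior_finset (X := V) hfin.toFinset
      (fun n : Fin m → ℕ => ((Submodule.span 𝕜
        {v + f v • ((∑ i, n i • u i : LinearMap.ker f) : V)} : Submodule 𝕜 V) : Set V))
      (fun n => line_closed _) (fun n => line_interior h2 _)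
    have hOW : W ∩ O ⊆ K := by
      rintro y ⟨⟨_, hfy, hy⟩, s, hs, rfl⟩
      obtain ⟨a, n, rfl⟩ := closure_form f c u hs
      have hfk : f ((∑ i, n i • u i : LinearMap.ker f) : V) = 0 := (∑ i, n i • u i).2
      have ha : (a : 𝕜) ≠ 0 := a.ne_zero
      have e1 : f (T f a (∑ i, n i • u i) v) = a * f v := by
        rw [T_apply, map_smul, map_add, map_smul, hfk]; simp
      have e2 : g (T f a (∑ i, n i • u i) v) = a * (g v + f v * ∑ i, (n i : 𝕜) * g (u i)) := by
        rw [T_apply, map_smul, map_add, map_smul, smul_eq_mul, smul_eq_mul]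
        congr 3
        rw [Submodule.coe_sum, map_sum]
        refine Finset.sum_congr rfl fun i _ => ?_
        rw [Submodule.coe_smul_of_tower, map_nsmul, nsmul_eq_mul]
      have e3 : g (T f a (∑ i, n i • u i) v) / f (T f a (∑ i, n i • u i) v) =
          g v / f v + ∑ i, (n i : 𝕜) * g (u i) := by
        rw [e1, e2]; field_simp
      have e4 : RCLike.re (g (T f a (∑ i, n i • u i) v) / f (T f a (∑ i, n i • u i) v)) =
          RCLike.re (g v / f v) + ∑ i, (n i : ℝ) * RCLike.re (g (u i)) := by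
        rw [e3, map_add, map_sum]
        congr 1
        refine Finset.sum_congr rfl fun i _ => ?_
        rw [← RCLike.ofReal_natCast, RCLike.re_ofReal_mul]
      have e5 : ∑ i, (n i : ℝ) ≤ ∑ i, (n i : ℝ) * RCLike.re (g (u i)) :=
        Finset.sum_le_sum fun i _ => le_mul_of_one_le_right (Nat.cast_nonneg _) (hg i)
      have e6 : ∑ i, (n i : ℝ) < N := by
        have : RCLike.re (g (T f a (∑ i, n i • u i) v) / f (T f a (∑ i, n i • u i) v)) < C := hy
        rw [e4] at this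
        linarith
      rw [hK, Set.mem_iUnion₂]
      refine ⟨n, ?_, ?_⟩
      · rw [Set.Finite.mem_toFinset, Set.mem_Iic]
        intro i
        have h7 : (n i : ℝ) ≤ ∑ i, (n i : ℝ) :=
          Finset.single_le_sum (f := fun i => (n i : ℝ)) (fun j _ => Nat.cast_nonneg _)
            (Finset.mem_univ i)
        have h8 : (n i : ℝ) < N := lt_of_le_of_lt h7 e6
        exact (Nat.cast_lt.1 h8).le
      · rw [T_apply]
        exact Submodule.smul_mem _ _ (Submodule.mem_span_singleton_self _)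
    have hWK : W ⊆ K := by
      intro y hy
      have h5 : y ∈ closure (W ∩ O) := by
        have h6 : y ∈ closure O := interior_subset hy.1
        have h7 : W ∩ closure O ⊆ closure (W ∩ O) := hWo.inter_closure
        exact h7 ⟨hy, h6⟩
      exact closure_minimal hOW hKc.1 h5
    have hWi : W ⊆ interior K := interior_maximal hWK hWo
    have : y0 ∈ interior K := hWi hy0W
    rw [hK, hKc.2] at this
    exact this

theorem negative [FiniteDimensional 𝕜 V] (h2 : 2 ≤ finrank 𝕜 V) : ¬ Rays 𝕜 V := by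
  rintro ⟨m, w, hw, H⟩
  have hnt : Nontrivial V := Module.nontrivial_of_finrank_pos (R := 𝕜) (by omega)
  obtain ⟨x0, hx0⟩ := exists_ne (0 : V)
  obtain ⟨f, hf⟩ := Module.exists_dual_forall_apply_ne_zero (K := 𝕜)
    (fun o : Option (Fin m) => o.elim x0 w) (by
      intro o
      cases o with
      | none => exact hx0
      | some i => exact hw i)
  have hfx : f x0 ≠ 0 := hf none
  have hfw : ∀ i, f (w i) ≠ 0 := fun i => hf (some i)
  have hf0 : f ≠ 0 := by
    rintro rfl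
    exact hfx rfl
  obtain ⟨k, hk0, hfk⟩ : ∃ k : V, k ≠ 0 ∧ f k = 0 := by
    have hker : LinearMap.ker f ≠ ⊥ := by
      intro hb
      have h3 := LinearMap.finrank_range_add_finrank_ker f
      rw [hb, finrank_bot] at h3
      have h4 : finrank 𝕜 (LinearMap.range f) ≤ finrank 𝕜 𝕜 := Submodule.finrank_le _
      rw [finrank_self] at h4
      omega
    obtain ⟨k, hk, hk0⟩ := Submodule.exists_mem_ne_zero_of_ne_bot hker
    exact ⟨k, hk0, hk⟩
  obtain ⟨g, hg⟩ : ∃ g : V →ₗ[𝕜] 𝕜, g k = 1 := by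
    obtain ⟨g, hg⟩ : ∃ g : Dual 𝕜 V, g k ≠ 0 := by
      by_contra! hcon
      exact hk0 ((Module.forall_dual_apply_eq_zero_iff 𝕜 k).1 hcon)
    refine ⟨(g k)⁻¹ • g, ?_⟩
    rw [LinearMap.smul_apply, smul_eq_mul, inv_mul_cancel₀ hg]
  set e0 : V := (f x0)⁻¹ • x0 with he0
  have hfe0 : f e0 = 1 := by
    rw [he0, map_smul, smul_eq_mul, inv_mul_cancel₀ hfx]
  obtain ⟨R, hR⟩ : ∃ R : ℝ, ∀ i, 1 ≤ RCLike.re (g ((f (w i))⁻¹ • w i - e0)) + R := by
    obtain ⟨R, hR⟩ := (Set.finite_range fun i : Fin m =>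
      1 - RCLike.re (g ((f (w i))⁻¹ • w i - e0))).bddAbove
    refine ⟨R, fun i => ?_⟩
    have := hR ⟨i, rfl⟩
    simp only at this
    linarith
  set e : V := e0 - ((R : ℝ) : 𝕜) • k with he
  have hfe : f e = 1 := by
    have h3 : f e = f e0 - ((R : ℝ) : 𝕜) • f k := by
      rw [he, map_sub, LinearMap.map_smul f ((R : ℝ) : 𝕜) k]
    rw [h3, hfk, hfe0]; simp
  have hu : ∀ i, f ((f (w i))⁻¹ • w i - e) = 0 := by
    intro i
    rw [map_sub, map_smul, hfe, smul_eq_mul, inv_mul_cancel₀ (hfw i), sub_self]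
  set c : Fin m → 𝕜ˣ := fun i => Units.mk0 (f (w i)) (hfw i) with hc
  set u : Fin m → LinearMap.ker f := fun i => ⟨(f (w i))⁻¹ • w i - e, hu i⟩ with hudef
  have hgu : ∀ i, 1 ≤ RCLike.re (g (u i)) := by
    intro i
    have h3 : ((u i : LinearMap.ker f) : V) = ((f (w i))⁻¹ • w i - e0) + ((R : ℝ) : 𝕜) • k := by
      show (f (w i))⁻¹ • w i - e = _
      rw [he]; abel
    rw [h3, map_add, map_smul, hg, map_add]
    simpa using hR i
  have hwi : ∀ i, w i = (c i : 𝕜) • (e + (u i : V)) := by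
    intro i
    simp only [hudef, hc, Units.val_mk0]
    rw [add_sub_cancel, smul_smul, mul_inv_cancel₀ (hfw i), one_smul]
  obtain ⟨v, hv⟩ := H (gens f c u) (gens_finite f c u) (gens_comm f c u)
    ⟨e, coarse f c u e hfe w hwi⟩
  exact no_dense h2 f c u g hgu hf0 v hv

end neg

section pos

/-- Powers of a number of modulus one come back near one. -/
theorem recur {𝕜 : Type} [RCLike 𝕜] (u : 𝕜) (hu : ‖u‖ = 1) (ε : ℝ) (hε : 0 < ε) (N : ℕ) :
    ∃ n, N ≤ n ∧ ‖u ^ n - 1‖ < ε := by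
  have hc : IsCompact (Metric.sphere (0 : 𝕜) 1) := isCompact_sphere 0 1
  have hmem : ∀ n : ℕ, u ^ (n * N) ∈ Metric.sphere (0 : 𝕜) 1 := by
    intro n
    simp [hu]
  obtain ⟨a, _, φ, hφ, hlim⟩ := hc.tendsto_subseq hmem
  have hcs := hlim.cauchySeq
  rw [Metric.cauchySeq_iff] at hcs
  obtain ⟨M, hM⟩ := hcs ε hε
  have h1 := hM (M + 1) (by omega) M le_rfl
  have hlt : φ M < φ (M + 1) := hφ (by omega)
  refine ⟨(φ (M + 1) - φ M) * N, ?_, ?_⟩
  · exact Nat.le_mul_of_pos_left _ (by omega)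
  · simp only [Function.comp_apply, dist_eq_norm] at h1
    have h2 : u ^ (φ (M + 1) * N) - u ^ (φ M * N) =
        u ^ (φ M * N) * (u ^ ((φ (M + 1) - φ M) * N) - 1) := by
      rw [mul_sub, ← pow_add, ← add_mul, mul_one]
      congr 3
      omega
    rw [h2, norm_mul, norm_pow, hu, one_pow, one_mul] at h1
    exact h1

/-- The counting argument: some element has modulus less than one. -/
theorem exists_small {𝕜 : Type} [RCLike 𝕜] (G : Set 𝕜) (hG : G.Finite) (hG0 : ∀ g ∈ G, g ≠ 0)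
    (a : 𝕜) (ha : a ≠ 0) (D : ℝ) (hD : 0 < D)
    (H : ∀ t : ℝ, 0 < t → ∃ s ∈ Subsemigroup.closure G, ‖s * a - (t : 𝕜)‖ < D) :
    ∃ g ∈ G, ‖g‖ < 1 := by
  by_contra! hcon
  have : Fintype G := hG.fintype
  classical
  -- the moduli are products of powers of the moduli of the generators
  have hform : ∀ s ∈ Subsemigroup.closure G, ∃ n : G → ℕ, (∀ g : G, ‖(g : 𝕜)‖ = 1 → n g = 0) ∧
      ‖s‖ = ∏ g : G, ‖(g : 𝕜)‖ ^ n g := by
    intro s hs
    induction hs using Subsemigroup.closure_induction with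
    | mem x hx =>
      by_cases h1 : ‖x‖ = 1
      · exact ⟨0, fun _ _ => rfl, by simp [h1]⟩
      · refine ⟨Pi.single ⟨x, hx⟩ 1, ?_, ?_⟩
        · intro g hg
          rw [Pi.single_apply, if_neg]
          rintro rfl
          exact h1 hg
        · rw [Finset.prod_eq_single ⟨x, hx⟩]
          · simp
          · intro j _ hj
            rw [Pi.single_eq_of_ne hj, pow_zero]
          · simp
    | mul x y _ _ hx hy =>
      obtain ⟨n, hn, hn'⟩ := hx
      obtain ⟨k, hk, hk'⟩ := hy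
      refine ⟨n + k, fun g hg => by rw [Pi.add_apply, hn g hg, hk g hg], ?_⟩
      rw [norm_mul, hn', hk', ← Finset.prod_mul_distrib]
      refine Finset.prod_congr rfl fun g _ => ?_
      rw [Pi.add_apply, pow_add]
  obtain ⟨b, hb, hb1⟩ : ∃ b : ℝ, (∀ g : G, 1 < ‖(g : 𝕜)‖ → b ≤ ‖(g : 𝕜)‖) ∧ 1 < b := by
    have h1 : ∀ᶠ b in nhdsWithin (1 : ℝ) (Set.Ioi 1), ∀ g : G, 1 < ‖(g : 𝕜)‖ →
        b ≤ ‖(g : 𝕜)‖ := by
      rw [Filter.eventually_all]
      intro g
      by_cases hg : 1 < ‖(g : 𝕜)‖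
      · filter_upwards [nhdsWithin_le_nhds (Iic_mem_nhds hg)] with b hb _
        exact hb
      · exact Filter.Eventually.of_forall fun b hb => absurd hb hg
    obtain ⟨b, hb, hb1⟩ := (h1.and self_mem_nhdsWithin).exists
    exact ⟨b, hb, hb1⟩
  set r : ℕ := Fintype.card G with hr
  have hapos : 0 < ‖a‖ := norm_pos_iff.2 ha
  -- choice of the parameters
  obtain ⟨M, hM⟩ : ∃ M : ℕ, (2 * (((M + 1) ^ r + 1 : ℕ) : ℝ) + 1) * D < b ^ (M + 1) * ‖a‖ := by
    have h1 := tendsto_pow_const_div_const_pow_of_one_lt r hb1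
    have h2 : 0 < ‖a‖ / (5 * D) := by positivity
    have h3 := (h1.eventually (gt_mem_nhds h2)).and (Filter.eventually_ge_atTop 1)
    obtain ⟨M', hM', hM1⟩ := h3.exists
    obtain ⟨M, rfl⟩ : ∃ M, M' = M + 1 := ⟨M' - 1, by omega⟩
    refine ⟨M, ?_⟩
    have hbp : 0 < b ^ (M + 1) := by positivity
    rw [div_lt_div_iff₀ hbp (by positivity)] at hM'
    have h5 : (1 : ℝ) ≤ ((M + 1 : ℕ) : ℝ) ^ r := one_le_pow₀ (by exact_mod_cast hM1)
    have h6 : (2 * (((M + 1) ^ r + 1 : ℕ) : ℝ) + 1) ≤ 5 * ((M + 1 : ℕ) : ℝ) ^ r := by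
      push_cast at h5 ⊢
      linarith
    calc (2 * (((M + 1) ^ r + 1 : ℕ) : ℝ) + 1) * D ≤ (5 * ((M + 1 : ℕ) : ℝ) ^ r) * D :=
          mul_le_mul_of_nonneg_right h6 hD.le
      _ = ((M + 1 : ℕ) : ℝ) ^ r * (5 * D) := by ring
      _ < ‖a‖ * b ^ (M + 1) := hM'
      _ = b ^ (M + 1) * ‖a‖ := by ring
  have key : ∀ k : Fin ((M + 1) ^ r + 1), ∃ n : G → Fin (M + 1),
      |(∏ g : G, ‖(g : 𝕜)‖ ^ (n g : ℕ)) * ‖a‖ - 2 * ((k : ℕ) + 1) * D| < D := by
    intro k
    have ht : 0 < 2 * (((k : ℕ) : ℝ) + 1) * D := by positivity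
    obtain ⟨s, hs, hsD⟩ := H _ ht
    obtain ⟨n, hn1, hn2⟩ := hform s hs
    have h1 : |‖s‖ * ‖a‖ - 2 * (((k : ℕ) : ℝ) + 1) * D| < D := by
      refine lt_of_le_of_lt ?_ hsD
      have h2 := abs_norm_sub_norm_le (s * a) ((2 * (((k : ℕ) : ℝ) + 1) * D : ℝ) : 𝕜)
      rw [norm_mul, RCLike.norm_ofReal, abs_of_pos ht] at h2
      exact h2
    have hk : ((k : ℕ) : ℝ) + 1 ≤ (((M + 1) ^ r + 1 : ℕ) : ℝ) := by
      exact_mod_cast k.2
    have h3 : ‖s‖ * ‖a‖ < b ^ (M + 1) * ‖a‖ := by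
      have h4 := (abs_lt.1 h1).2
      have h5 : 2 * (((k : ℕ) : ℝ) + 1) * D + D ≤
          (2 * (((M + 1) ^ r + 1 : ℕ) : ℝ) + 1) * D := by
        nlinarith
      linarith
    have h6 : ‖s‖ < b ^ (M + 1) := lt_of_mul_lt_mul_right h3 hapos.le
    have h7 : ∀ g : G, n g < M + 1 := by
      intro g
      by_cases hg : ‖(g : 𝕜)‖ = 1
      · rw [hn1 g hg]; omega
      · have hg1 : 1 < ‖(g : 𝕜)‖ := lt_of_le_of_ne (hcon g g.2) (Ne.symm hg)
        have h8 : b ^ n g ≤ ‖s‖ := by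
          calc b ^ n g ≤ ‖(g : 𝕜)‖ ^ n g := pow_le_pow_left₀ (by linarith) (hb g hg1) _
            _ ≤ ∏ g : G, ‖(g : 𝕜)‖ ^ n g := by
              rw [← Finset.mul_prod_erase Finset.univ _ (Finset.mem_univ g)]
              refine le_mul_of_one_le_right (by positivity) ?_
              exact Finset.prod_induction _ (fun x : ℝ => 1 ≤ x)
                (fun _ _ h1 h2 => one_le_mul_of_one_le_of_one_le h1 h2) le_rfl
                (fun j _ => one_le_pow₀ (hcon j j.2))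
            _ = ‖s‖ := hn2.symm
        exact (pow_lt_pow_iff_right₀ hb1).1 (lt_of_le_of_lt h8 h6)
    refine ⟨fun g => ⟨n g, h7 g⟩, ?_⟩
    simp only
    rw [← hn2]
    exact h1
  choose n hn using key
  have hinj : Function.Injective n := by
    intro j k hjk
    by_contra hne
    have h1 := hn j
    have h2 := hn k
    rw [hjk] at h1
    have h3 : |2 * (((j : ℕ) : ℝ) + 1) * D - 2 * (((k : ℕ) : ℝ) + 1) * D| < 2 * D := by
      rw [abs_lt] at h1 h2 ⊢
      constructor <;> linarith [h1.1, h1.2, h2.1, h2.2]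
    have h4 : |((j : ℕ) : ℝ) - ((k : ℕ) : ℝ)| < 1 := by
      have h5 : 2 * (((j : ℕ) : ℝ) + 1) * D - 2 * (((k : ℕ) : ℝ) + 1) * D =
        (((j : ℕ) : ℝ) - ((k : ℕ) : ℝ)) * (2 * D) := by ring
      rw [h5, abs_mul, abs_of_pos (by positivity : 0 < 2 * D)] at h3
      have h6 : |((j : ℕ) : ℝ) - ((k : ℕ) : ℝ)| * (2 * D) < 1 * (2 * D) := by linarith
      exact lt_of_mul_lt_mul_right h6 (by positivity)
    have h5 : (j : ℕ) = k := by
      have h6 : |((j : ℕ) : ℤ) - ((k : ℕ) : ℤ)| < 1 := by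
        have : ((|((j : ℕ) : ℤ) - ((k : ℕ) : ℤ)| : ℤ) : ℝ) < 1 := by
          push_cast; exact h4
        exact_mod_cast this
      rw [Int.abs_lt_one_iff] at h6
      omega
    exact hne (Fin.ext h5)
  have hcard := Fintype.card_le_of_injective n hinj
  simp only [Fintype.card_fin, Fintype.card_fun] at hcard
  rw [← hr] at hcard
  omega

/-- Coarse density along a ray and an element of modulus less than one give the ray in the
closure. -/
theorem ray_mem_closure {𝕜 : Type} [RCLike 𝕜] (S : Set 𝕜) (hS : ∀ x ∈ S, ∀ y ∈ S, x * y ∈ S)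
    (a y q : 𝕜) (hy : ‖y‖ = 1) (hq : q ∈ S) (hq0 : q ≠ 0) (hq1 : ‖q‖ < 1) (D : ℝ) (hD : 0 < D)
    (H : ∀ t : ℝ, 0 < t → ∃ s ∈ S, ‖s * a - (t : 𝕜) * y‖ < D) (r : ℝ) (hr : 0 < r) :
    (r : 𝕜) * y ∈ closure ((fun s => s * a) '' S) := by
  have hqp : 0 < ‖q‖ := norm_pos_iff.2 hq0
  rw [Metric.mem_closure_iff]
  intro ε hε
  set u : 𝕜 := q / (‖q‖ : 𝕜) with hu
  have hqn : (‖q‖ : 𝕜) ≠ 0 := by
    rw [Ne, RCLike.ofReal_eq_zero]; exact hqp.ne'
  have hun : ‖u‖ = 1 := by
    rw [hu, norm_div, RCLike.norm_ofReal, abs_of_pos hqp, div_self hqp.ne']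
  have h1 : Filter.Tendsto (fun n : ℕ => D * ‖q‖ ^ n) Filter.atTop (nhds 0) := by
    have := (tendsto_pow_atTop_nhds_zero_of_lt_one hqp.le hq1).const_mul D
    simpa using this
  obtain ⟨N, hN⟩ := (h1.eventually (gt_mem_nhds (half_pos hε))).exists_forall_of_atTop
  obtain ⟨n, hn, hn'⟩ := recur u hun (ε / 2 / r) (by positivity) (N + 1)
  obtain ⟨s, hs, hsD⟩ := H (r / ‖q‖ ^ n) (by positivity)
  have hqpow : ∀ k : ℕ, q ^ (k + 1) ∈ S := by
    intro k
    induction k with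
    | zero => simpa using hq
    | succ k ih => rw [pow_succ]; exact hS _ ih _ hq
  have hqn2 : q ^ n ∈ S := by
    obtain ⟨k, rfl⟩ : ∃ k, n = k + 1 := ⟨n - 1, by omega⟩
    exact hqpow k
  refine ⟨(q ^ n * s) * a, ⟨q ^ n * s, hS _ hqn2 _ hs, rfl⟩, ?_⟩
  rw [dist_eq_norm]
  have hq2 : q ^ n = (‖q‖ : 𝕜) ^ n * u ^ n := by
    rw [hu, div_pow, mul_div_cancel₀]
    exact pow_ne_zero _ hqn
  have h3 : (r : 𝕜) * y - (q ^ n * s) * a =
      (r : 𝕜) * y * (1 - u ^ n) - q ^ n * (s * a - ((r / ‖q‖ ^ n : ℝ) : 𝕜) * y) := by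
    have h4 : q ^ n * (((r / ‖q‖ ^ n : ℝ) : 𝕜) * y) = (r : 𝕜) * y * u ^ n := by
      rw [hq2]
      push_cast
      field_simp
    rw [mul_sub (q ^ n), h4]
    ring
  rw [h3]
  calc ‖(r : 𝕜) * y * (1 - u ^ n) - q ^ n * (s * a - ((r / ‖q‖ ^ n : ℝ) : 𝕜) * y)‖
      ≤ ‖(r : 𝕜) * y * (1 - u ^ n)‖ + ‖q ^ n * (s * a - ((r / ‖q‖ ^ n : ℝ) : 𝕜) * y)‖ :=
        norm_sub_le _ _
    _ = r * ‖u ^ n - 1‖ + ‖q‖ ^ n * ‖s * a - ((r / ‖q‖ ^ n : ℝ) : 𝕜) * y‖ := by
        rw [norm_mul, norm_mul, norm_mul, hy, RCLike.norm_ofReal, abs_of_pos hr, mul_one, norm_pow,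
          norm_sub_rev]
    _ < ε / 2 + ε / 2 := by
        refine add_lt_add ?_ ?_
        · rw [lt_div_iff₀ hr] at hn'
          linarith
        · have h5 := hN n (by omega)
          have h6 : ‖q‖ ^ n * ‖s * a - ((r / ‖q‖ ^ n : ℝ) : 𝕜) * y‖ ≤ ‖q‖ ^ n * D :=
            mul_le_mul_of_nonneg_left hsD.le (by positivity)
          linarith
    _ = ε := by ring

/-- The one-dimensional case, reduction to scalars. -/
theorem core {𝕜 V : Type} [RCLike 𝕜] [NormedAddCommGroup V] [NormedSpace 𝕜 V]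
    (w0 : V) (hw0 : w0 ≠ 0) (hsp : ∀ w : V, ∃ c : 𝕜, c • w0 = w)
    (F : Set (V ≃ₗ[𝕜] V)) (hF : F.Finite) (v : V) (D : ℝ) (hD : 0 < D) (Y : Set 𝕜)
    (h1Y : (1 : 𝕜) ∈ Y) (hY : ∀ y ∈ Y, ‖y‖ = 1)
    (H : ∀ y ∈ Y, ∀ t : ℝ, 0 < t → ∃ s ∈ Subsemigroup.closure F,
      dist ((t : 𝕜) • (y • w0)) (s v) < D) :
    ∃ (a : 𝕜) (S : Subsemigroup 𝕜), a ≠ 0 ∧
      (∀ y ∈ Y, ∀ r : ℝ, 0 < r → (r : 𝕜) * y / a ∈ closure (S : Set 𝕜)) ∧
      ((interior (closure (S : Set 𝕜))).Nonempty →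
        (interior (closure (orbit 𝕜 (Subsemigroup.closure F : Set (V ≃ₗ[𝕜] V)) v))).Nonempty) := by
  have hsp' : ∀ s : V ≃ₗ[𝕜] V, ∃ c : 𝕜, c • w0 = s w0 := fun s => hsp (s w0)
  choose cf hcf using hsp'
  have hinj : ∀ x y : 𝕜, x • w0 = y • w0 → x = y := fun x y h => smul_left_injective 𝕜 hw0 h
  have hmul : ∀ s t, cf (s * t) = cf s * cf t := by
    intro s t
    apply hinj
    rw [hcf, LinearEquiv.mul_apply, ← hcf t, map_smul, ← hcf s, smul_smul, mul_comm]
  have hcf0 : ∀ s, cf s ≠ 0 := by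
    intro s h0
    have := hcf s
    rw [h0, zero_smul] at this
    exact hw0 ((LinearEquiv.map_eq_zero_iff s).1 this.symm)
  set c : (V ≃ₗ[𝕜] V) →ₙ* 𝕜 := ⟨cf, hmul⟩ with hc
  set S : Subsemigroup 𝕜 := Subsemigroup.closure (cf '' F) with hS
  have hmap : (Subsemigroup.closure F).map c = S := MulHom.map_mclosure c F
  obtain ⟨a, rfl⟩ := hsp v
  have hsv : ∀ s : V ≃ₗ[𝕜] V, s (a • w0) = cf s • (a • w0) := by
    intro s
    rw [map_smul, ← hcf s, smul_comm]
  have hw0n : 0 < ‖w0‖ := norm_pos_iff.2 hw0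
  -- `a` is not zero
  have ha : a ≠ 0 := by
    rintro rfl
    obtain ⟨s, _, hs⟩ := H 1 h1Y (2 * D / ‖w0‖) (by positivity)
    rw [zero_smul, map_zero, dist_zero_right, one_smul, norm_smul, RCLike.norm_ofReal,
      abs_of_pos (by positivity), div_mul_cancel₀ _ hw0n.ne'] at hs
    linarith
  have H' : ∀ y ∈ Y, ∀ t : ℝ, 0 < t → ∃ q ∈ S, ‖q * a - (t : 𝕜) * y‖ < D / ‖w0‖ := by
    intro y hy t ht
    obtain ⟨s, hs, hsD⟩ := H y hy t ht
    refine ⟨cf s, ?_, ?_⟩
    · rw [← hmap]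
      exact ⟨s, hs, rfl⟩
    · rw [lt_div_iff₀ hw0n, ← norm_smul]
      rw [hsv, dist_comm, dist_eq_norm, smul_smul, smul_smul, ← sub_smul] at hsD
      exact hsD
  obtain ⟨g, hg, hg1⟩ := exists_small (cf '' F) (hF.image cf) (by
    rintro g ⟨s, _, rfl⟩; exact hcf0 s) a ha (D / ‖w0‖) (by positivity) (by
    intro t ht
    have := H' 1 h1Y t ht
    simpa using this)
  refine ⟨a, S, ha, ?_, ?_⟩
  · intro y hy r hr
    have h1 := ray_mem_closure (S : Set 𝕜) (fun x hx y hy => S.mul_mem hx hy) a y g (hY y hy)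
      (Subsemigroup.subset_closure hg) (by obtain ⟨s, _, rfl⟩ := hg; exact hcf0 s) hg1
      (D / ‖w0‖) (by positivity) (H' y hy) r hr
    have h2 : Continuous fun x : 𝕜 => x / a := continuous_id.div_const a
    refine map_mem_closure (f := fun x : 𝕜 => x / a) h2 h1 ?_
    rintro _ ⟨s, hs, rfl⟩
    simp only
    rw [mul_div_cancel_right₀ _ ha]
    exact hs
  · intro hne
    have hv0 : a • w0 ≠ 0 := smul_ne_zero ha hw0
    have hbij : Function.Bijective (LinearMap.toSpanSingleton 𝕜 V (a • w0)) := by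
      constructor
      · intro x y hxy
        simp only [LinearMap.toSpanSingleton_apply] at hxy
        exact smul_left_injective 𝕜 hv0 hxy
      · intro x
        obtain ⟨b, rfl⟩ := hsp x
        refine ⟨b / a, ?_⟩
        rw [LinearMap.toSpanSingleton_apply, smul_smul, div_mul_cancel₀ _ ha]
    set e : 𝕜 ≃L[𝕜] V := (LinearEquiv.ofBijective _ hbij).toContinuousLinearEquiv with he
    have heq : orbit 𝕜 (Subsemigroup.closure F : Set (V ≃ₗ[𝕜] V)) (a • w0) =
        e.toHomeomorph '' (S : Set 𝕜) := by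
      ext y
      constructor
      · rintro ⟨s, hs, rfl⟩
        refine ⟨cf s, ?_, ?_⟩
        · rw [← hmap]; exact ⟨s, hs, rfl⟩
        · rw [hsv]; rfl
      · rintro ⟨q, hq, rfl⟩
        rw [← hmap] at hq
        obtain ⟨s, hs, rfl⟩ := hq
        refine ⟨s, hs, ?_⟩
        rw [hsv]; rfl
    rw [heq, ← Homeomorph.image_closure, ← Homeomorph.image_interior]
    exact hne.image _

theorem positive_real {V : Type} [NormedAddCommGroup V] [NormedSpace ℝ V]
    (h : finrank ℝ V = 1) : Rays ℝ V := by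
  obtain ⟨w0, hw0, hsp⟩ := finrank_eq_one_iff'.1 h
  refine ⟨1, fun _ => w0, fun _ => hw0, ?_⟩
  rintro F hF _ ⟨v, D, hD, hv⟩
  refine ⟨v, ?_⟩
  obtain ⟨a, S, ha, h1, h2⟩ := core w0 hw0 hsp F hF v D hD {1} rfl (by simp) (by
    intro y hy t ht
    rw [Set.mem_singleton_iff] at hy
    subst hy
    have h3 := hv (Set.mem_iUnion.2 ⟨0, t, ht, rfl⟩)
    rw [Set.mem_iUnion₂] at h3
    obtain ⟨x, ⟨s, hs, rfl⟩, hx⟩ := h3
    refine ⟨s, hs, ?_⟩
    rw [one_smul]
    exact hx)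
  refine h2 ?_
  rcases lt_or_gt_of_ne ha with ha' | ha'
  · have h4 : Set.Iio (0 : ℝ) ⊆ closure (S : Set ℝ) := by
      intro x hx
      have h5 := h1 1 rfl (x * a) (mul_pos_of_neg_of_neg hx ha')
      simpa [ha] using h5
    refine ⟨-1, mem_interior_iff_mem_nhds.2 (Filter.mem_of_superset (Iio_mem_nhds ?_) h4)⟩
    norm_num
  · have h4 : Set.Ioi (0 : ℝ) ⊆ closure (S : Set ℝ) := by
      intro x hx
      have h5 := h1 1 rfl (x * a) (mul_pos hx ha')
      simpa [ha] using h5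
    refine ⟨1, mem_interior_iff_mem_nhds.2 (Filter.mem_of_superset (Ioi_mem_nhds ?_) h4)⟩
    norm_num

/-- The point `e^(2 π i x)` of the circle. -/
noncomputable def om (x : ℝ) : ℂ := Complex.exp ((2 * Real.pi * x : ℝ) * Complex.I)

theorem om_norm (x : ℝ) : ‖om x‖ = 1 := Complex.norm_exp_ofReal_mul_I _

theorem om_add (x y : ℝ) : om (x + y) = om x * om y := by
  unfold om
  rw [← Complex.exp_add]
  congr 1
  push_cast
  ring

theorem om_zero : om 0 = 1 := by simp [om]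

theorem om_one : om 1 = 1 := by
  unfold om
  rw [← Complex.exp_two_pi_mul_I]
  congr 1
  push_cast
  ring

theorem om_cont : Continuous om := by
  unfold om
  fun_prop

theorem positive_complex {V : Type} [NormedAddCommGroup V] [NormedSpace ℂ V]
    (h : finrank ℂ V = 1) : Rays ℂ V := by
  obtain ⟨w0, hw0, hsp⟩ := finrank_eq_one_iff'.1 h
  have hom0 : ∀ x, om x ≠ 0 := fun x => by
    rw [← norm_ne_zero_iff, om_norm]; exact one_ne_zero
  refine ⟨3, ![w0, om (Real.sqrt 2) • w0, om (-Real.sqrt 2) • w0], ?_, ?_⟩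
  · intro i
    fin_cases i
    · exact hw0
    · exact smul_ne_zero (hom0 _) hw0
    · exact smul_ne_zero (hom0 _) hw0
  rintro F hF _ ⟨v, D, hD, hv⟩
  refine ⟨v, ?_⟩
  obtain ⟨a, S, ha, h1, h2⟩ := core w0 hw0 hsp F hF v D hD
    ({1, om (Real.sqrt 2), om (-Real.sqrt 2)} : Set ℂ) (by simp) (by
      intro y hy
      simp only [Set.mem_insert_iff, Set.mem_singleton_iff] at hy
      rcases hy with rfl | rfl | rfl
      · simp
      · exact om_norm _
      · exact om_norm _) (by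
    intro y hy t ht
    obtain ⟨i, hi⟩ : ∃ i : Fin 3, y • w0 =
        (![w0, om (Real.sqrt 2) • w0, om (-Real.sqrt 2) • w0] : Fin 3 → V) i := by
      simp only [Set.mem_insert_iff, Set.mem_singleton_iff] at hy
      rcases hy with rfl | rfl | rfl
      · exact ⟨0, one_smul _ _⟩
      · exact ⟨1, rfl⟩
      · exact ⟨2, rfl⟩
    have h3 := hv (Set.mem_iUnion.2 ⟨i, t, ht, rfl⟩)
    rw [Set.mem_iUnion₂] at h3
    obtain ⟨x, ⟨s, hs, rfl⟩, hx⟩ := h3
    refine ⟨s, hs, ?_⟩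
    rw [hi]
    exact hx)
  refine h2 ?_
  have hap : 0 < ‖a‖ := norm_pos_iff.2 ha
  have han : (‖a‖ : ℂ) ≠ 0 := by exact_mod_cast hap.ne'
  set β : ℂ := (‖a‖ : ℂ) / a with hβ
  have hβn : ‖β‖ = 1 := by
    rw [hβ, norm_div, Complex.norm_real, norm_norm, div_self hap.ne']
  set K : Set ℂ := closure (S : Set ℂ) with hK
  have hKmul : ∀ x ∈ K, ∀ y ∈ K, x * y ∈ K := fun x hx y hy =>
    (S.topologicalClosure).mul_mem hx hy
  set R : Set ℂ := {z | ∀ r : ℝ, 0 < r → (r : ℂ) * z ∈ K} with hR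
  have hRmul : ∀ x ∈ R, ∀ y ∈ R, x * y ∈ R := by
    intro x hx y hy r hr
    have := hKmul _ (hx r hr) _ (hy 1 one_pos)
    simpa [mul_assoc] using this
  have hRclosed : IsClosed R := by
    have : R = ⋂ (r : ℝ) (_ : 0 < r), (fun z : ℂ => (r : ℂ) * z) ⁻¹' K := by
      ext z; simp [hR]
    rw [this]
    refine isClosed_iInter fun r => isClosed_iInter fun _ => ?_
    exact isClosed_closure.preimage (continuous_const.mul continuous_id)
  have hRy : ∀ y ∈ ({1, om (Real.sqrt 2), om (-Real.sqrt 2)} : Set ℂ), y * β ∈ R := by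
    intro y hy r hr
    have h3 := h1 y hy (r * ‖a‖) (by positivity)
    have h4 : ((r * ‖a‖ : ℝ) : ℂ) * y / a = (r : ℂ) * (y * β) := by
      rw [hβ]; push_cast; ring
    rw [← h4]
    exact h3
  have hRβ : β ∈ R := by
    have := hRy 1 (by simp)
    simpa using this
  have hRpow : ∀ k : ℕ, β ^ (k + 1) ∈ R := by
    intro k
    induction k with
    | zero => simpa using hRβ
    | succ k ih => rw [pow_succ]; exact hRmul _ ih _ hRβ
  have hRone : ∀ y ∈ ({1, om (Real.sqrt 2), om (-Real.sqrt 2)} : Set ℂ), ‖y‖ = 1 → y ∈ R := by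
    intro y hy hyn
    rw [← hRclosed.closure_eq, Metric.mem_closure_iff]
    intro ε hε
    obtain ⟨n, hn, hn'⟩ := recur β hβn ε hε 2
    obtain ⟨k, rfl⟩ : ∃ k, n = k + 2 := ⟨n - 2, by omega⟩
    refine ⟨y * β ^ (k + 2), ?_, ?_⟩
    · have h3 : y * β ^ (k + 2) = (y * β) * β ^ (k + 1) := by ring
      rw [h3]
      exact hRmul _ (hRy y hy) _ (hRpow k)
    · rw [dist_comm, dist_eq_norm]
      have h3 : y * β ^ (k + 2) - y = y * (β ^ (k + 2) - 1) := by ring
      rw [h3, norm_mul, hyn, one_mul]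
      exact hn'
  have hA : ∀ x ∈ AddSubgroup.closure ({1, Real.sqrt 2} : Set ℝ), om x ∈ R ∧ om (-x) ∈ R := by
    intro x hx
    have h1R : (1 : ℂ) ∈ R := hRone 1 (by simp) (by simp)
    induction hx using AddSubgroup.closure_induction with
    | mem x hx =>
      simp only [Set.mem_insert_iff, Set.mem_singleton_iff] at hx
      rcases hx with rfl | rfl
      · refine ⟨by rw [om_one]; exact h1R, ?_⟩
        have h3 : om (-1) = 1 := by
          have h4 := om_add 1 (-1)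
          rw [add_neg_cancel, om_zero, om_one, one_mul] at h4
          exact h4.symm
        rw [h3]; exact h1R
      · exact ⟨hRone _ (by simp) (om_norm _), hRone _ (by simp) (om_norm _)⟩
    | zero => rw [neg_zero, om_zero]; exact ⟨h1R, h1R⟩
    | add x y _ _ hx hy =>
      refine ⟨by rw [om_add]; exact hRmul _ hx.1 _ hy.1, ?_⟩
      rw [neg_add, om_add]; exact hRmul _ hx.2 _ hy.2
    | neg x _ hx => rw [neg_neg]; exact ⟨hx.2, hx.1⟩
  have hdense : Dense (AddSubgroup.closure ({1, Real.sqrt 2} : Set ℝ) : Set ℝ) := by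
    rw [dense_addSubgroupClosure_pair_iff]
    have := irrational_sqrt_two.inv
    simpa using this
  have hall : ∀ x : ℝ, om x ∈ R := by
    have hcl : IsClosed {x : ℝ | om x ∈ R} := hRclosed.preimage om_cont
    have hsub : (AddSubgroup.closure ({1, Real.sqrt 2} : Set ℝ) : Set ℝ) ⊆ {x : ℝ | om x ∈ R} :=
      fun x hx => (hA x hx).1
    intro x
    exact closure_minimal hsub hcl (hdense x)
  have hsub : {z : ℂ | z ≠ 0} ⊆ K := by
    intro z hz
    have h3 := hall (Complex.arg z / (2 * Real.pi)) ‖z‖ (norm_pos_iff.2 hz)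
    have h4 : ((‖z‖ : ℝ) : ℂ) * om (Complex.arg z / (2 * Real.pi)) = z := by
      unfold om
      rw [mul_div_cancel₀ _ (by positivity : (2 * Real.pi) ≠ 0)]
      exact Complex.norm_mul_exp_arg_mul_I z
    rw [h4] at h3
    exact h3
  refine ⟨1, mem_interior_iff_mem_nhds.2 (Filter.mem_of_superset ?_ hsub)⟩
  exact isOpen_ne.mem_nhds one_ne_zero

end pos

/-- Rays as in the question exist in a non-trivial finite-dimensional real or complex normed space
if and only if its dimension is one. -/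
theorem result :
    (∀ (V : Type) [NormedAddCommGroup V] [NormedSpace ℝ V] [FiniteDimensional ℝ V] [Nontrivial V],
      Rays ℝ V ↔ finrank ℝ V = 1) ∧
    (∀ (V : Type) [NormedAddCommGroup V] [NormedSpace ℂ V] [FiniteDimensional ℂ V] [Nontrivial V],
      Rays ℂ V ↔ finrank ℂ V = 1) := by
  constructor
  · intro V _ _ _ _
    refine ⟨fun h => ?_, positive_real⟩
    have h1 : 0 < finrank ℝ V := finrank_pos
    by_contra hne
    exact negative (by omega) h
  · intro V _ _ _ _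
    refine ⟨fun h => ?_, positive_complex⟩
    have h1 : 0 < finrank ℂ V := finrank_pos
    by_contra hne
    exact negative (by omega) h

end Pool.Agent.Results.MP_c0f1e3_an.Rays
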